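import Mathlib
import Pool.Agent.H.MP_918176_nt.A
import Pool.Agent.H.MP_7b566e_nt.A

set_option autoImplicit false

namespace Pool.Agent.H.MP_8a294c_nt

open PowerSeries Finset Pool.Agent.Lib.helper11.Mahler Pool.Agent.H.MP_918176_nt

lemma two_g : 2 * geo ℤ 1 = r + 1 := by
  rw [r]
  linear_combination g1

lemma U_T (k : ℕ) : U 2 (r ^ k) = Polynomial.aeval r (Polynomial.Chebyshev.T ℤ k) := by
  induction k using Nat.twoStepInduction with
  | zero => simp [U_one]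
  | one => simpa using u1
  | more k h0 h1 =>
    rw [urec, h0, h1]
    push_cast
    rw [Polynomial.Chebyshev.T_add_two]
    simp [map_ofNat]

lemma U_aeval (p : Polynomial ℤ) : ∃ q : Polynomial ℤ,
    U 2 (Polynomial.aeval r p) = Polynomial.aeval r q := by
  induction p using Polynomial.induction_on' with
  | add p q hp hq =>
    obtain ⟨a, ha⟩ := hp
    obtain ⟨b, hb⟩ := hq
    exact ⟨a + b, by rw [map_add, map_add, ha, hb, map_add]⟩
  | monomial k c =>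
    refine ⟨c * Polynomial.Chebyshev.T ℤ k, ?_⟩
    rw [Polynomial.aeval_monomial, eq_intCast, U_int, U_T, map_mul, map_intCast]

lemma UX_pow (k : ℕ) : ∃ p : Polynomial ℤ,
    U 2 (X * r ^ k) = X * ((r + 1) * Polynomial.aeval r p) := by
  induction k using Nat.twoStepInduction with
  | zero => exact ⟨0, by simp [U_X]⟩
  | one =>
    refine ⟨1, ?_⟩
    have h : X * r ^ 1 = X * expand 2 two_ne_zero r +
        1 * expand 2 two_ne_zero (X * (2 * geo ℤ 1)) := by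
      rw [expand_r, map_mul, map_mul, expand_geo, expand_X, map_ofNat, r, g12]
      ring
    rw [h, map_add, U_mul_expand, U_mul_expand, U_X, U_one 2 two_ne_zero, two_g, map_one]
    ring
  | more k h0 h1 =>
    obtain ⟨p, hp⟩ := h0
    obtain ⟨q, hq⟩ := h1
    refine ⟨2 * Polynomial.X * q - p, ?_⟩
    rw [pow_add, ← mul_assoc, rec_r, mul_assoc _ _ r, ← pow_succ, hp, hq]
    simp only [map_sub, map_mul, map_ofNat, Polynomial.aeval_X]
    ring

lemma UX_aeval (p : Polynomial ℤ) : ∃ q : Polynomial ℤ,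
    U 2 (X * Polynomial.aeval r p) = X * ((r + 1) * Polynomial.aeval r q) := by
  induction p using Polynomial.induction_on' with
  | add p q hp hq =>
    obtain ⟨a, ha⟩ := hp
    obtain ⟨b, hb⟩ := hq
    refine ⟨a + b, ?_⟩
    rw [map_add, mul_add, map_add, ha, hb, map_add]
    ring
  | monomial k c =>
    obtain ⟨a, ha⟩ := UX_pow k
    refine ⟨c * a, ?_⟩
    rw [Polynomial.aeval_monomial, mul_left_comm, eq_intCast, U_int, ha, map_mul, map_intCast]
    ring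

def Pre (m a s : ℕ) (f : ℤ⟦X⟧) : Prop :=
  ∀ N n, coeff (a + 2 ^ s * n) (P m (N + s)) = coeff n (f * P m N)

lemma pre0 (m a s : ℕ) (p : Polynomial ℤ) (h : Pre m a s (Polynomial.aeval r p)) :
    ∃ q : Polynomial ℤ, Pre m a (s + 1) (Polynomial.aeval r q) := by
  obtain ⟨q, hq⟩ := U_aeval (p * Polynomial.X ^ m)
  rw [map_mul (Polynomial.aeval r), map_pow, Polynomial.aeval_X] at hq
  refine ⟨q, fun N n => ?_⟩
  rw [pow_succ, mul_assoc, show N + (s + 1) = N + 1 + s by ring, h, ← coeff_U, P_succ, ← mul_assoc,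
    U_mul_expand, hq]

lemma pre1 (m a s : ℕ) (p : Polynomial ℤ) (h : Pre m a s (Polynomial.aeval r p)) :
    ∃ q : Polynomial ℤ, Pre m (a + 2 ^ s) (s + 1) ((r + 1) * Polynomial.aeval r q) := by
  obtain ⟨q, hq⟩ := UX_aeval (p * Polynomial.X ^ m)
  rw [map_mul (Polynomial.aeval r), map_pow, Polynomial.aeval_X] at hq
  refine ⟨q, fun N n => ?_⟩
  rw [show a + 2 ^ s + 2 ^ (s + 1) * n = a + 2 ^ s * (2 * n + 1) by ring,
    show N + (s + 1) = N + 1 + s by ring, h, ← coeff_succ_X_mul,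
    show 2 * n + 1 + 1 = 2 * (n + 1) by ring, ← coeff_U, P_succ, ← mul_assoc (Polynomial.aeval r p),
    ← mul_assoc X, U_mul_expand, hq, mul_assoc, coeff_succ_X_mul]

lemma pre (m s a : ℕ) (h : a < 2 ^ s) :
    ∃ p : Polynomial ℤ, Pre m a s (Polynomial.aeval r p) := by
  induction s generalizing a with
  | zero =>
    obtain rfl : a = 0 := by simpa using h
    exact ⟨1, fun N n => by simp⟩
  | succ s ih =>
    rcases lt_or_ge a (2 ^ s) with h1 | h1
    · obtain ⟨p, hp⟩ := ih a h1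
      exact pre0 m a s p hp
    · obtain ⟨b, rfl⟩ := Nat.exists_eq_add_of_le' h1
      obtain ⟨p, hp⟩ := ih b (by omega)
      obtain ⟨q, hq⟩ := pre1 m b s p hp
      exact ⟨(Polynomial.X + 1) * q, by simpa using hq⟩

noncomputable def c (m n : ℕ) : ℤ := coeff n (P m (n + 1))

noncomputable def sg (m n : ℕ) : ℤ := coeff n (geo ℤ 1 * P m (n + 1))

lemma stab (m n M M' : ℕ) (f : ℤ⟦X⟧) (h : n < 2 ^ M) (h' : n < 2 ^ M') :
    coeff n (f * P m M) = coeff n (f * P m M') := by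
  rw [P, P, ← mul_assoc, ← mul_assoc]
  rcases le_total M M' with h1 | h1
  · exact (coeff_prod_stable 2 m n (by norm_num) _ _ _ h h1).symm
  · exact coeff_prod_stable 2 m n (by norm_num) _ _ _ h' h1

lemma lt2 (n M : ℕ) (h : n ≤ M) : n < 2 ^ M := h.trans_lt (Nat.lt_pow_self (by norm_num))

lemma c_eq (m n M : ℕ) (h : n < 2 ^ M) : c m n = coeff n (P m M) := by
  simpa [c] using stab m n (n + 1) M 1 (lt2 _ _ (by omega)) h

lemma sg_eq (m n M : ℕ) (h : n < 2 ^ M) : sg m n = coeff n (geo ℤ 1 * P m M) :=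
  stab m n (n + 1) M _ (lt2 _ _ (by omega)) h

lemma P_zero (m N : ℕ) : constantCoeff (P m N) = 1 := by
  have h : ∀ k, constantCoeff (geo ℤ k) = 1 := fun k => by
    rw [← coeff_zero_eq_constantCoeff_apply]
    simp [geo]
  simp [P, h]

lemma mult (m a t b : ℕ) (ha : 0 < a) :
    ∃ n, 0 < n ∧ c m n ≡ c m a * sg m (2 ^ t * b) [ZMOD 2 ^ (t + 2)] := by
  have h1 := Nat.pow_log_le_self 2 ha.ne'
  have h2 := Nat.lt_pow_succ_log_self (b := 2) (by norm_num) a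
  generalize Nat.log 2 a = s at *
  obtain ⟨a, rfl⟩ := Nat.exists_eq_add_of_le' h1
  obtain ⟨p, hp⟩ := pre m s a (by omega)
  obtain ⟨q, hq⟩ := pre1 m a s p hp
  obtain ⟨q', hq'⟩ := Polynomial.X_sub_C_dvd_sub_C_eval (p := q) (a := 1)
  have e : (r + 1) * Polynomial.aeval r q = ((2 * q.eval 1 : ℤ) : ℤ⟦X⟧) * geo ℤ 1 +
      (r ^ 2 - 1) * Polynomial.aeval r q' := by
    have := congrArg (Polynomial.aeval r) hq'
    simp only [map_sub, map_mul, Polynomial.aeval_X, eq_intCast, map_intCast,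
      map_one] at this
    push_cast
    linear_combination (r + 1) * this - (q.eval 1 : ℤ) * two_g
  rw [e] at hq
  have hw : constantCoeff (r ^ 2 - 1) = 0 := by
    have h : constantCoeff (geo ℤ 1) = 1 := by
      rw [← coeff_zero_eq_constantCoeff_apply]
      simp [geo]
    simp [r, h]
  have h0 : c m (a + 2 ^ s) = 2 * q.eval 1 := by
    have h : constantCoeff (geo ℤ 1) = 1 := by
      rw [← coeff_zero_eq_constantCoeff_apply]
      simp [geo]
    have := hq 0 0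
    rw [mul_zero, add_zero, ← c_eq _ _ _ (by simpa using h2), coeff_zero_eq_constantCoeff_apply,
      map_mul, P_zero, map_add, map_mul, map_mul, hw, h, map_intCast] at this
    simpa using this
  obtain ⟨n, hn⟩ : ∃ n, n = a + 2 ^ s + 2 ^ (s + 1) * (2 ^ t * b) := ⟨_, rfl⟩
  refine ⟨n, by omega, ?_⟩
  have h3 := hq (n + 2 ^ t * b + t) (2 ^ t * b)
  rw [← hn, ← c_eq _ _ _ (lt2 _ _ (by omega)), add_mul, map_add, mul_assoc, ← zsmul_eq_mul,
    map_zsmul, smul_eq_mul, ← sg_eq _ _ _ (lt2 _ _ (by omega)), ← h0] at h3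
  rw [h3]
  exact (Int.modEq_iff_dvd.mpr (by
    rw [add_sub_cancel_left]
    exact dvd_A m t q' _ b (by omega))).symm

lemma iter (m a t b i : ℕ) (ha : 0 < a) :
    ∃ n, 0 < n ∧ c m n ≡ c m a * sg m (2 ^ t * b) ^ i [ZMOD 2 ^ (t + 2)] := by
  induction i with
  | zero => exact ⟨a, ha, by simp⟩
  | succ i ih =>
    obtain ⟨n, hn, h⟩ := ih
    obtain ⟨n', hn', h'⟩ := mult m n t b hn
    refine ⟨n', hn', h'.trans ?_⟩
    rw [pow_succ _ i, ← mul_assoc]
    exact h.mul_right _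

lemma cheb (j : ℕ) : ∃ p q : Polynomial ℤ,
    Polynomial.Chebyshev.T ℤ (2 ^ (j + 1)) = 1 + 2 ^ (j + 1) * ((Polynomial.X ^ 2 - 1) * p) ∧
    Polynomial.Chebyshev.T ℤ (2 ^ (j + 1) - 1) =
      Polynomial.X + 2 ^ (j + 1) * ((Polynomial.X ^ 2 - 1) * q) := by
  induction j with
  | zero =>
    refine ⟨1, 0, ?_, by norm_num⟩
    norm_num [Polynomial.Chebyshev.T_two]
    ring
  | succ j ih =>
    obtain ⟨p, q, hp, hq⟩ := ih
    have h1 := Polynomial.Chebyshev.T_mul_T ℤ (2 ^ (j + 1)) (2 ^ (j + 1))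
    have h2 := Polynomial.Chebyshev.T_mul_T ℤ (2 ^ (j + 1)) (2 ^ (j + 1) - 1)
    rw [sub_self, Polynomial.Chebyshev.T_zero, ← two_mul, ← pow_succ', hp] at h1
    rw [sub_sub_cancel, Polynomial.Chebyshev.T_one, ← add_sub_assoc, ← two_mul, ← pow_succ', hp,
      hq] at h2
    refine ⟨2 * p + 2 ^ (j + 1) * (Polynomial.X ^ 2 - 1) * p ^ 2,
      q + Polynomial.X * p + 2 ^ (j + 1) * (Polynomial.X ^ 2 - 1) * p * q, ?_, ?_⟩
    · linear_combination -h1
    · linear_combination -h2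

lemma Ug : ∃ p : Polynomial ℤ, U 2 (geo ℤ 1 * r ^ 1023) =
    geo ℤ 1 + ((512 : ℤ) : ℤ⟦X⟧) * ((r ^ 2 - 1) * Polynomial.aeval r p) := by
  obtain ⟨p, q, hp, hq⟩ := cheb 9
  have h1 := U_T 1024
  have h2 := U_T 1023
  rw [show ((1024 : ℕ) : ℤ) = 2 ^ (9 + 1) by norm_num, hp] at h1
  rw [show ((1023 : ℕ) : ℤ) = 2 ^ (9 + 1) - 1 by norm_num, hq] at h2
  simp only [map_add, map_mul, map_pow, map_sub, map_one, map_ofNat, Polynomial.aeval_X] at h1 h2
  have h20 : (2 : ℤ⟦X⟧) ≠ 0 := fun h => by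
    simpa [map_ofNat] using congrArg constantCoeff h
  refine ⟨p + q, mul_left_cancel₀ (a := 2) h20 ?_⟩
  have h3 := U_int 2 (geo ℤ 1 * r ^ 1023)
  push_cast at h3 ⊢
  rw [← mul_assoc, two_g, add_mul, ← pow_succ', one_mul, map_add, h1, h2] at h3
  rw [map_add]
  linear_combination -h3 - two_g

lemma sg_step (t b : ℕ) : sg 1023 (2 ^ (t + 1) * b) ≡ sg 1023 (2 ^ t * b) [ZMOD 2 ^ (t + 11)] := by
  obtain ⟨p, hp⟩ := Ug
  have h := dvd_A 1023 t p (2 * (2 ^ t * b) + t) b (by omega)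
  rw [pow_succ' 2 t, mul_assoc]
  generalize 2 ^ t * b = a at *
  rw [sg_eq _ _ (2 * a + t + 1) (lt2 _ _ (by omega)), sg_eq _ _ (2 * a + t) (lt2 _ _ (by omega)),
    ← coeff_U, P_succ, ← mul_assoc, U_mul_expand, hp, add_mul, map_add, mul_assoc, ← zsmul_eq_mul,
    map_zsmul, smul_eq_mul]
  refine (Int.modEq_iff_dvd.mpr ?_).symm
  rw [add_sub_cancel_left, show (2 : ℤ) ^ (t + 11) = 512 * 2 ^ (t + 2) by ring]
  exact mul_dvd_mul_left _ h

open Pool.Agent.H.MP_7b566e_nt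

def fQ : ℕ → ℕ → ℕ
  | 0 => fun n => if n = 0 then 1 else 0
  | N + 1 => nx 2 1022 (fQ N)

lemma prod_succ (N : ℕ) : ∏ i ∈ range (N + 1), geo ℤ (2 ^ i) ^ 1023 =
    geo ℤ 1 ^ 1023 * expand 2 two_ne_zero (∏ i ∈ range N, geo ℤ (2 ^ i) ^ 1023) := by
  rw [prod_range_succ', map_prod, mul_comm]
  simp only [map_pow, expand_geo, ← pow_succ', pow_zero]

lemma coeff_fQ (N n : ℕ) :
    coeff n (∏ i ∈ range N, geo ℤ (2 ^ i) ^ 1023) = ((fQ N n : ℕ) : ℤ) := by
  induction N generalizing n with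
  | zero => simp [fQ, coeff_one]
  | succ N ih =>
    rw [prod_succ]
    exact coeff_nx 2 1022 two_ne_zero _ _ ih n

lemma v34 : nx 2 2045 (fQ 5) 34 % 2 ^ 23 = 2 ^ 11 := by decide +kernel

lemma v12 : nx 2 2046 (fQ 3) 12 % 2 ^ 13 = 1 + 2 ^ 12 := by decide +kernel

lemma c34 : c 1023 34 ≡ 2 ^ 11 [ZMOD 2 ^ 23] := by
  have h := v34
  rw [c_eq _ _ (5 + 1) (by norm_num), P, prod_succ, ← mul_assoc, ← pow_add,
    coeff_nx 2 2045 two_ne_zero _ _ (coeff_fQ 5)]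
  generalize nx 2 2045 (fQ 5) 34 = x at *
  unfold Int.ModEq
  omega

lemma sg12 : sg 1023 (2 ^ 2 * 3) ≡ 1 + 2 ^ 12 [ZMOD 2 ^ 13] := by
  have h := v12
  rw [sg_eq _ _ (3 + 1) (by norm_num), P, prod_succ, ← mul_assoc, ← mul_assoc, ← pow_succ',
    ← pow_add, coeff_nx 2 2046 two_ne_zero _ _ (coeff_fQ 3), show 2 ^ 2 * 3 = 12 from rfl]
  generalize nx 2 2046 (fQ 3) 12 = x at *
  unfold Int.ModEq
  omega

lemma sg_mod (t : ℕ) : sg 1023 (2 ^ (t + 2) * 3) ≡ 1 + 2 ^ 12 [ZMOD 2 ^ 13] := by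
  induction t with
  | zero => exact sg12
  | succ t ih =>
    exact ((sg_step (t + 2) 3).of_dvd (pow_dvd_pow 2 (by omega))).trans ih

lemma sq_mod (g : ℤ) (h : g ≡ 1 + 2 ^ 12 [ZMOD 2 ^ 13]) (B : ℕ) :
    ∃ k, g ^ 2 ^ B = 1 + 2 ^ (B + 12) * (1 + 2 * k) := by
  induction B with
  | zero =>
    obtain ⟨k, hk⟩ := h.symm.dvd
    exact ⟨k, by linear_combination hk⟩
  | succ B ih =>
    obtain ⟨k, hk⟩ := ih
    refine ⟨k + 2 ^ (B + 10) * (1 + 2 * k) ^ 2, ?_⟩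
    rw [pow_succ 2 B, pow_mul, hk]
    ring

theorem main (B : ℕ) : ∃ n, 0 < n ∧ c 1023 n ≡ 2 ^ 11 [ZMOD 2 ^ (B + 23)] := by
  induction B with
  | zero => exact ⟨34, by norm_num, c34⟩
  | succ B ih =>
    obtain ⟨a, ha, h⟩ := ih
    obtain ⟨j, hj⟩ := h.symm.dvd
    obtain ⟨i, rfl | rfl⟩ := Int.even_or_odd' j
    · exact ⟨a, ha, (Int.modEq_iff_dvd.mpr ⟨i, by linear_combination hj⟩).symm⟩
    · obtain ⟨n, hn, h1⟩ := iter 1023 a (B + 20 + 2) 3 (2 ^ B) ha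
      obtain ⟨k, hk⟩ := sq_mod _ (sg_mod (B + 20)) B
      refine ⟨n, hn, h1.trans (Int.modEq_iff_dvd.mpr
        ⟨i + k + 1 + 2 ^ (B + 11) * (2 * i + 1) * (1 + 2 * k), ?_⟩).symm⟩
      rw [hk]
      linear_combination (1 + 2 ^ (B + 12) * (1 + 2 * k)) * hj

end Pool.Agent.H.MP_8a294c_nt
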